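import Pool.Agent.Helper48.T5b.EvCode
import Pool.Agent.Helper54.T5.SplitDefs

/-!
# T5b (MP_12a1af): integers across a node (UN-KEY, SPLIT, DROP) and across a SPLIT
-/

set_option autoImplicit false

namespace Pool.Agent.Helper48.T5b

open Finset Pool.Agent.Helper27.T4 Pool.Agent.Helper37.T5b
open Pool.Agent.Helper5.ET (pr pr_prime pr_inj bb era own cnt Nj ordK iso pre mask)
open Pool.Agent.Helper27.T5b Pool.Agent.Helper30.T5b
open Pool.Agent.Helper22.HW Pool.Agent.Helper57.T5 Pool.Agent.Helper39.T5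
open Pool.Agent.Helper84.T5b (JF Key pJ aJ Jn mL sL bL rL QQ ef FF cmp0 c0 XJ okeyF okey Ss cs Ys Un
  Vw pJ_prime pJ_inj preJ maskJ Mk)
open Pool.Agent.Helper54.T5 (crt crt_left crt_right crt_lt)

variable {m k : ℕ}

/-! ## the window of a node: only digits of the moving main family -/

/-- all main positions of `[mL l', mL x]` lie after the growth in the first quarter of the special
era of the triple `s + 1` -/
structure Win (m k s l' x : ℕ) : Prop where
  ks : k ≤ s
  le : l' ≤ x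
  lo : nE m k (s + 1) < mL m k l'
  hi : mL m k x ≤ bb (kt m (s + 1)) + len (kt m (s + 1)) / 4

/-- the moving family -/
def gf (m s : ℕ) : Fin 3 := fam (kt m (s + 1))

namespace Win

variable {s l' x : ℕ}

theorem mono (h : Win m k s l' x) {a b : ℕ} (ha : l' ≤ a) (hab : a ≤ b) (hb : b ≤ x) :
    Win m k s a b where
  ks := h.ks
  le := hab
  lo := h.lo.trans_le (mL_mono m k ha)
  hi := (mL_mono m k hb).trans h.hi

theorem bb_lt (h : Win m k s l' x) : bb (kt m (s + 1)) < mL m k l' := by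
  have h1 := bb_le_ut m (s + 1)
  have h2 := ut_le_nE m k (s + 1)
  have h3 := h.lo
  omega

theorem era_eq (hm : 0 < m) (h : Win m k s l' x) {z : ℕ} (h1 : mL m k l' ≤ z) (h2 : z ≤ mL m k x) :
    era z = kt m (s + 1) := by
  have h3 := h.bb_lt
  have h4 := h.hi
  have h5 := bb_add_len (kt m (s + 1))
  have h6 := kt_pos hm (s + 1)
  have h7 := len_bounds (kt m (s + 1))
  have h8 := bb_ge_pow (kt m (s + 1))
  exact Pool.Agent.Helper27.T4.era_eq _ _ (by omega) (by omega)

theorem own_eq (hm : 0 < m) (h : Win m k s l' x) {z : ℕ} (h1 : mL m k l' ≤ z)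
    (h2 : z ≤ mL m k x) : own z = gf m s := by
  rw [Pool.Agent.Helper27.T4.own_eq, h.era_eq hm h1 h2]
  rfl

theorem ins_eq (hm : 0 < m) (h : Win m k s l' x) {z : ℕ} (h1 : mL m k l' ≤ z)
    (h2 : z ≤ mL m k x) : ins m k z = 0 := by
  have he := h.era_eq hm h1 h2
  have h3 := h.bb_lt
  have h4 := h.lo
  apply ins_zero
  · rw [he]
    omega
  · rintro ⟨h5, n, h6, h7, h8⟩
    rw [he, lv_kt hm h.ks] at h7 h8
    have h9 : n * Bq m (s + 1) ≤ nn m k (s + 1) * Bq m (s + 1) := Nat.mul_le_mul_right _ h7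
    have h10 : nE m k (s + 1) = ut m (s + 1) + nn m k (s + 1) * Bq m (s + 1) := rfl
    omega

/-- no extra digit -/
theorem sub_eq (hm : 0 < m) (h : Win m k s l' x) : x - l' = mL m k x - mL m k l' :=
  (no_extra (mo := own) (ex := ex m k) h.le (fun _ h1 h2 => h.ins_eq hm h1 h2)).1

theorem ow_eq (hm : 0 < m) (h : Win m k s l' x) {i : ℕ} (h1 : l' ≤ i) (h2 : i < x) :
    ow (ins m k) own (ex m k) i = Sum.inl (gf m s) := by
  obtain ⟨e1, e2⟩ := no_extra (mo := own) (ex := ex m k) h.le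
    (fun _ a1 a2 => h.ins_eq hm a1 a2)
  rw [e2 i h1 h2]
  congr 1
  apply h.own_eq hm (Nat.le_add_right _ _)
  show mL m k l' + (i - l') ≤ mL m k x
  have h3 := h.sub_eq hm
  have h4 := mL_mono m k h.le
  omega

/-- **the counts of the other families stand still** -/
theorem ct_eq (hm : 0 < m) (h : Win m k s l' x) {f : Fin 3 ⊕ Option (ℕ × Fin 3)}
    (hf : f ≠ Sum.inl (gf m s)) : cT m k f x = cT m k f l' := by
  refine ((ct_eq_iff f h.le).2 (fun i h1 h2 h3 => ?_)).symm
  rw [h.ow_eq hm h1 h2] at h3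
  exact hf h3.symm

/-- the moving family takes all digits -/
theorem ct_gf (hm : 0 < m) (h : Win m k s l' x) :
    cT m k (Sum.inl (gf m s)) x = cT m k (Sum.inl (gf m s)) l' + (x - l') := by
  rw [cT, cT, ct_sub _ h.le, filter_true_of_mem, Nat.card_Ico]
  intro i hi
  rw [mem_Ico] at hi
  exact h.ow_eq hm hi.1 hi.2

/-- the triple `s + 1` is complete -/
theorem full (hm : 0 < m) (h : Win m k s l' x) (f : Fin 3) :
    cT m k (Sum.inr (some (s + 1, f))) l' = zf m k (s + 1) f :=
  ct_after hm (by have := h.ks; omega) f h.lo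

theorem le_ut (hm : 0 < m) (h : Win m k s l' x) : mL m k x ≤ ut m (s + 2) := by
  apply le_ut_of hm
  have h1 := h.hi
  have h2 := len_bounds (kt m (s + 1))
  omega

/-- the triple `s + 2` has not begun -/
theorem none (hm : 0 < m) (h : Win m k s l' x) (f : Fin 3) :
    cT m k (Sum.inr (some (s + 2, f))) x = 0 := ct_before hm f (h.le_ut hm)

theorem bb0 (hm : 0 < m) (h : Win m k s l' x) : bb 0 ≤ mL m k l' := by
  have h1 := h.bb_lt
  have h2 := bb_strictMono.monotone (Nat.zero_le (kt m (s + 1)))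
  omega

theorem cpl (hm : 0 < m) (h : Win m k s l' x) (hs : s ≤ sL m k l') : Cpl m k s x :=
  Cpl_of hm ((h.bb0 hm).trans (mL_mono m k h.le)) h.ks (hs.trans (sL_mono hm k h.le))
    (h.le_ut hm)

theorem cpl_succ (hm : 0 < m) (h : Win m k s l' x) (hs : s ≤ sL m k l') : Cpl m k (s + 1) x := by
  refine (h.cpl hm hs).succ (fun f => ?_)
  rw [h.ct_eq hm (by simp)]
  exact h.full hm f

/-- **the joint moduli before and after the split** -/
theorem Jn_split (hm : 0 < m) (h : Win m k s l' x) :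
    Jn m k s x = Jn m k (s + 1) x * QT m k (s + 1) := by
  have h1 : TJ m k (s + 1) x = QT m k (s + 1) := TJ_full (fun f => by
    rw [h.ct_eq hm (by simp)]
    exact h.full hm f)
  have h2 : TJ m k (s + 1 + 1) x = 1 := TJ_zero (fun f => h.none hm f)
  rw [Jn_eq, Jn_eq, h1, h2, mul_one]

end Win

/-! ## the window between the two states of a node event and their fronts -/

/-- the size of a front is small against the special era -/
theorem SS_small (hm : 0 < m) (s : ℕ) : 1024 * SS m (s + 1) ≤ bb (kt m (s + 1)) := by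
  have h1 := SS_succ_ge hm (s + 1)
  have h2 := kt_spec m (s + 1)
  have h3 : 1024 * SS m (s + 1) ≤ 2 ^ 250 * SS m (s + 1) := Nat.mul_le_mul_right _ (by
    calc 1024 = 2 ^ 10 := by norm_num
      _ ≤ 2 ^ 250 := Nat.pow_le_pow_right (by norm_num) (by norm_num))
  omega

theorem Win_of_node (hm : 0 < m) {s l' l x : ℕ} (hk : k ≤ s) (hl : l' ≤ l)
    (hlo : nE m k (s + 1) < mL m k l') (hhi : mL m k l ≤ nD m k (s + 1) + Zt m (s + 1))
    (hx : l' ≤ x) (hx' : x ≤ l + SS m (s + 1)) : Win m k s l' x where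
  ks := hk
  le := hx
  lo := hlo
  hi := by
    have h1 := nD_le hm k s
    have h2 := SS_small hm s
    have h3 := len_bounds (kt m (s + 1))
    have h4 := bb_ge_pow (kt m (s + 1))
    have h5 : mL m k x ≤ mL m k l + SS m (s + 1) := by
      rcases le_total x l with h | h
      · exact (mL_mono m k h).trans (Nat.le_add_right _ _)
      · have := mL_sub_le m k h
        omega
    omega

/-- the data of a SPLIT -/
structure SplitP (m k s l' l : ℕ) : Prop where
  ks : k ≤ s
  le : l' ≤ l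
  s' : sL m k l' = s
  s1 : sL m k l = s + 1
  b' : bL m k l' = s - k
  b1 : bL m k l = s - k
  win : ∀ x, l' ≤ x → x ≤ l + SS m (s + 1) → Win m k s l' x

/-- **from `SplitEv`** -/
theorem SplitP_of (hm : 0 < m) {l' l : ℕ} (hl : l' ≤ l)
    (h : SplitEv m k (mL m k l') (mL m k l)) : SplitP m k (lv m k (era (mL m k l))) l' l := by
  have hk := k_le_lv hm k (era (mL m k l))
  have h1 : nE m k (lv m k (era (mL m k l)) + 1) < mL m k l' := h.nE_lt
  have hb : bb 0 ≤ mL m k l := by
    have a1 := bb_le_ut m (lv m k (era (mL m k l)) + 1)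
    have a2 := ut_le_nE m k (lv m k (era (mL m k l)) + 1)
    have a3 := bb_strictMono.monotone (Nat.zero_le (kt m (lv m k (era (mL m k l)) + 1)))
    have a4 := mL_mono m k hl
    omega
  have h2 : mL m k l < nD m k (lv m k (era (mL m k l)) + 1) := by
    by_contra hc
    have := (lt_dv_iff hm hk hb).2 (not_lt.1 hc)
    rw [h.dv] at this
    exact absurd this (lt_irrefl _)
  exact ⟨hk, hl, h.sv', h.sv, by
      show dv m k (mL m k l') - k = _
      rw [h.dv'], by
      show dv m k (mL m k l) - k = _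
      rw [h.dv],
    fun x h3 h4 => Win_of_node hm hk hl h1 (by omega) h3 h4⟩

namespace SplitP

variable {s l' l : ℕ}

theorem rL' (h : SplitP m k s l' l) : rL m k l' = k := by
  have := h.ks
  unfold Pool.Agent.Helper84.T5b.rL
  rw [h.s', h.b']
  omega

theorem rL1 (h : SplitP m k s l' l) : rL m k l = k + 1 := by
  have := h.ks
  unfold Pool.Agent.Helper84.T5b.rL
  rw [h.s1, h.b1]
  omega

/-- the window up to the joint fronts -/
theorem win_ef (hm : 0 < m) (h : SplitP m k s l' l) (t : ℕ) : Win m k s l' (ef m k l t) := by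
  refine h.win _ (h.le.trans (lt_ef hm l t).le) ?_
  refine (ef_le hm l t).trans ?_
  rw [h.s1]
  exact ez_le_SS hm _ _

theorem win_ef' (hm : 0 < m) (h : SplitP m k s l' l) (t : ℕ) : Win m k s l' (ef m k l' t) := by
  refine h.win _ (lt_ef hm l' t).le ?_
  have h1 := ef_le (k := k) hm l' t
  rw [h.s'] at h1
  have h2 := ez_le_SS hm s l'
  have h3 := SS_mono m (Nat.le_succ s)
  have h4 := h.le
  simp only [Nat.succ_eq_add_one] at h3
  omega

/-- front number `t` of the lower state in the numbering of the upper state -/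
noncomputable def Gf (m k s l' t : ℕ) : ℕ := Jn m k (s + 1) (ez m (s + 1 - t) l')

theorem ef_lower (h : SplitP m k s l' l) (t : ℕ) : ef m k l' t = ez m (s + 1 - (t + 1)) l' := by
  unfold Pool.Agent.Helper84.T5b.ef
  rw [h.s', Nat.add_sub_add_right]

theorem ef_upper (h : SplitP m k s l' l) (t : ℕ) : ef m k l t = ez m (s + 1 - t) l := by
  unfold Pool.Agent.Helper84.T5b.ef
  rw [h.s1]

/-- **the fronts of the lower state** -/
theorem FF_lower (hm : 0 < m) (h : SplitP m k s l' l) (t : ℕ) :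
    FF m k l' t = Gf m k s l' (t + 1) * QT m k (s + 1) := by
  have h1 := (h.win_ef' hm t).Jn_split hm
  unfold Pool.Agent.Helper84.T5b.FF Gf
  rw [h.s', h1, h.ef_lower]

theorem FF_upper (h : SplitP m k s l' l) (t : ℕ) :
    FF m k l t = Jn m k (s + 1) (ez m (s + 1 - t) l) := by
  unfold Pool.Agent.Helper84.T5b.FF
  rw [h.s1, h.ef_upper]

theorem Gf_dvd (h : SplitP m k s l' l) (t : ℕ) : Gf m k s l' t ∣ FF m k l t := by
  rw [h.FF_upper]
  exact Jn_dvd m k _ (ez_mono m _ h.le)

theorem Gf_anti (hm : 0 < m) {t t' : ℕ} (h : t ≤ t') : Gf m k s l' t' ∣ Gf m k s l' t :=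
  Jn_dvd m k _ (ez_le hm (Nat.sub_le_sub_left h _) l')

theorem Gf_pos (m k s l' t : ℕ) : 0 < Gf m k s l' t := Jn_pos _ _ _ _

/-- the front and the moduli of the static level `t` of the lower state, seen as the level `t + 1`
of the numbering of the upper state -/
theorem FF_LL_lower (hm : 0 < m) (h : SplitP m k s l' l) (t : ℕ) :
    FF m k l' (t + 1) * LL (QQ m k (sL m k l')) t =
      Gf m k s l' (t + 2) * LL (QQ m k (s + 1)) (t + 1) := by
  rw [h.FF_lower hm, h.s', LL_QQ_succ]
  ring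

theorem Ss_lower (hm : 0 < m) (h : SplitP m k s l' l) (t : ℕ) (o : JF → ℕ) :
    (Ss m k l' t o).F = Gf m k s l' (t + 2) * LL (QQ m k (s + 1)) (t + 1) :=
  h.FF_LL_lower hm t

/-- bounds of the code of the static level `t` of the lower state -/
theorem cs_lower_lt (hm : 0 < m) (h : SplitP m k s l' l) (t : ℕ) (w : Key → ℕ) (o : JF → ℕ)
    (y : Fin 3 → ℕ) :
    cs m k l' t w o y < Gf m k s l' (t + 2) * LL (QQ m k (s + 1)) (t + 2) := by
  have h1 := cs_lt m k l' t w o y
  have h2 := h.FF_LL_lower hm t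
  rw [LL_succ, ← mul_assoc, h2, h.s', ← QQ_succ m k s t, mul_assoc, ← LL_succ] at h1
  exact h1

theorem cs_lower_dvd (hm : 0 < m) (h : SplitP m k s l' l) (t : ℕ) (w : Key → ℕ) (o : JF → ℕ)
    (y : Fin 3 → ℕ) :
    Gf m k s l' (t + 2) * LL (QQ m k (s + 1)) (t + 1) ∣ cs m k l' t w o y := by
  rw [← h.FF_LL_lower hm t]
  exact cs_dvd m k l' t w o y

/-- **the units** -/
theorem Un_lower (hm : 0 < m) (h : SplitP m k s l' l) :
    Un m k l' = Jn m k (s + 1) l' * LL (QQ m k (s + 1)) (rL m k l' + 1) := by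
  have h1 := (h.win l' le_rfl (h.le.trans (Nat.le_add_right _ _))).Jn_split hm
  unfold Pool.Agent.Helper84.T5b.Un
  rw [h.s', h1, LL_QQ_succ]
  ring

theorem Un_upper (h : SplitP m k s l' l) :
    Un m k l = Jn m k (s + 1) l * LL (QQ m k (s + 1)) (rL m k l) := by
  unfold Pool.Agent.Helper84.T5b.Un
  rw [h.s1]

theorem rL_succ (h : SplitP m k s l' l) : rL m k l = rL m k l' + 1 := by
  rw [h.rL', h.rL1]

theorem Jn_dvd_unit (h : SplitP m k s l' l) : Jn m k (s + 1) l' ∣ Jn m k (s + 1) l :=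
  Jn_dvd m k _ h.le

/-! ### counts -/

/-- counts at the joint front of the upper state -/
theorem ct_ef (hm : 0 < m) (h : SplitP m k s l' l) (t : ℕ) {f : Fin 3 ⊕ Option (ℕ × Fin 3)}
    (hf : f ≠ Sum.inl (gf m s)) : cT m k f (ef m k l t) = cT m k f l' :=
  (h.win_ef hm t).ct_eq hm hf

theorem ct_ef' (hm : 0 < m) (h : SplitP m k s l' l) (t : ℕ) {f : Fin 3 ⊕ Option (ℕ × Fin 3)}
    (hf : f ≠ Sum.inl (gf m s)) : cT m k f (ef m k l' t) = cT m k f l' :=
  (h.win_ef' hm t).ct_eq hm hf

theorem ct_l (hm : 0 < m) (h : SplitP m k s l' l) {f : Fin 3 ⊕ Option (ℕ × Fin 3)}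
    (hf : f ≠ Sum.inl (gf m s)) : cT m k f l = cT m k f l' :=
  (h.win l h.le (Nat.le_add_right _ _)).ct_eq hm hf

/-- the newborn exponents of the numbering of the upper state are `0` everywhere in the window -/
theorem aJ_newborn (hm : 0 < m) (h : SplitP m k s l' l) {x : ℕ} (h1 : l' ≤ x)
    (h2 : x ≤ l + SS m (s + 1)) (f : Fin 3) : aJ m k (s + 1) x (Sum.inr f.succ) = 0 :=
  (h.win x h1 h2).none hm f

theorem aJ_full (hm : 0 < m) (h : SplitP m k s l' l) {x : ℕ} (h1 : l' ≤ x)
    (h2 : x ≤ l + SS m (s + 1)) (f : Fin 3) :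
    aJ m k s x (Sum.inr f.succ) = zf m k (s + 1) f := by
  show cT m k (Sum.inr (some (s + 1, f))) x = _
  rw [(h.win x h1 h2).ct_eq hm (by simp)]
  exact (h.win x h1 h2).full hm f

end SplitP

end Pool.Agent.Helper48.T5b
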