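import Pool.Agent.Helper48.T5b.EvCrt
import Pool.Agent.Helper54.T5b.MSplit

/-!
# T5b (MP_12a1af): the digit facts of a split pair (`SplitDig` of helper54)
-/

set_option autoImplicit false

namespace Pool.Agent.Helper48.T5b

open Finset Pool.Agent.Helper27.T4 Pool.Agent.Helper37.T5b
open Pool.Agent.Helper5.ET (pr pr_prime pr_inj bb era own cnt Nj ordK iso pre mask)
open Pool.Agent.Helper27.T5b Pool.Agent.Helper30.T5b
open Pool.Agent.Helper22.HW Pool.Agent.Helper57.T5 Pool.Agent.Helper39.T5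
open Pool.Agent.Helper84.T5b (JF Key pJ aJ Jn mL sL bL rL QQ ef FF cmp0 c0 XJ okeyF okey Ss cs Ys Un
  Vw pJ_prime pJ_inj preJ maskJ Mk)
open Pool.Agent.Helper54.T5 (crt crt_left crt_right crt_lt)
open Pool.Agent.Helper54.T5b (SplitDig lowJ keyL MSp)

variable {m k : ℕ}

/-- the owner of an era has at least the digits of this era -/
theorem cnt_ge {j y : ℕ} (h2 : y ≤ bb (j + 1)) : y - bb j ≤ cnt (fam j) y := by
  unfold cnt
  rw [← Nat.card_Ico]
  apply card_le_card
  intro z hz
  rw [mem_Ico] at hz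
  rw [mem_filter, mem_range]
  refine ⟨hz.2, ?_⟩
  rw [own_eq, era_eq z j hz.1 (by omega)]

theorem thousand_Zt (hm : 0 < m) (t : ℕ) : 1024 * Zt m t ≤ bb (kt m t) := big_aux (Zt_len hm t)

/-- **the digit facts of a split pair** -/
theorem SplitDig_of (hm : 0 < m) {l' l : ℕ} (hl : l' < l)
    (h : SplitEv m k (mL m k l') (mL m k l)) : SplitDig m k l' l := by
  have hP := SplitP_of hm hl.le h
  set s := lv m k (era (mL m k l)) with hs
  have hspec : kt m (s + 1) = era (mL m k l) := h.spec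
  have hgf : gf m s = fam (era (mL m k l)) := by
    unfold gf
    rw [hspec]
  have hbd : ∀ x, x ≤ ef m k l 0 → x ≤ l + SS m (s + 1) := by
    intro x hx
    have h1 := ef_le (k := k) hm l 0
    rw [hP.s1] at h1
    have h2 := ez_le_SS hm (s + 1) l
    omega
  have hwin : ∀ x, l' ≤ x → x ≤ ef m k l 0 → Win m k s l' x :=
    fun x h1 h2 => hP.win x h1 (hbd x h2)
  refine
    { ss := by rw [hP.s1, hP.s']
      ll := hl
      le' := (lt_ef hm l' 0).le
      ee := ?_
      le := (lt_ef hm l 0).le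
      era_eq := h.era_eq
      ord' := h.ord'
      ord := h.ord
      iso' := h.iso'
      iso := h.iso
      nb0 := ?_
      full := ?_
      buf := ?_
      stat := ?_
      grow := ?_ }
  · show ez m (sL m k l' - 0) l' ≤ ez m (sL m k l - 0) l
    rw [hP.s', hP.s1]
    exact (ez_mono m _ hl.le).trans (ez_le hm (by omega) l)
  · intro x h1 h2 f
    rw [hP.s1]
    exact hP.aJ_newborn hm h1 (hbd x h2) f
  · intro x h1 h2 f
    rw [hP.s1, hP.s']
    exact hP.aJ_full hm h1 (hbd x h2) f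
  · intro x h1 h2
    exact (hwin x h1 h2).ct_eq hm (by simp)
  · intro x h1 h2 f hf
    refine (hwin x h1 h2).ct_eq hm ?_
    rw [hgf]
    simpa using hf
  · have hw := hwin l hl.le (lt_ef hm l 0).le
    show cT m k (Sum.inl (fam (era (mL m k l)))) l ≤
      2 * cT m k (Sum.inl (fam (era (mL m k l)))) l' + 1
    rw [← hgf]
    have e1 := hw.ct_gf hm
    have e2 := hw.sub_eq hm
    have e3 : cT m k (Sum.inl (gf m s)) l' = cnt (gf m s) (mL m k l') := cT_main m k _ l'
    have hb : bb 0 ≤ mL m k l := (hw.bb0 hm).trans (mL_mono m k hl.le)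
    have h2 : mL m k l < nD m k (s + 1) := by
      by_contra hc
      have := (lt_dv_iff hm hP.ks hb).2 (not_lt.1 hc)
      rw [h.dv] at this
      exact absurd this (lt_irrefl _)
    have h3 := hw.lo
    have h4 : nD m k (s + 1) = nE m k (s + 1) + 3 * Zt m (s + 1) := rfl
    have h5 := thousand_Zt hm (s + 1)
    have h6 : ut m (s + 1) = bb (kt m (s + 1)) + len (kt m (s + 1)) / 16 := rfl
    have h7 := ut_le_nE m k (s + 1)
    have h8 := len_bounds (kt m (s + 1))
    have h9 := bb_ge_pow (kt m (s + 1))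
    have h10 : mL m k l' - bb (kt m (s + 1)) ≤ cnt (gf m s) (mL m k l') := by
      apply cnt_ge
      have h11 := (hwin l' le_rfl (hl.le.trans (lt_ef hm l 0).le)).hi
      have h12 := bb_add_len (kt m (s + 1))
      omega
    omega

/-! ## the joint code of the lower state as `cdQ` -/

theorem maskJ_lowJ (l' : ℕ) (f : Fin 3) (x : JF → ℕ) :
    maskJ (preJ m k l' (Sum.inl f)) (lowJ x) = maskJ (preJ m k l' (Sum.inl f)) x := by
  funext i
  unfold maskJ
  split_ifs with hi
  · obtain ⟨g, _, rfl⟩ := Pool.Agent.Helper54.T5b.mem_preJ_inl hi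
    rfl
  · rfl

/-- **the joint code of the lower state** is helper54's `cdQ` -/
theorem c0_eq_cdQ (hm : 0 < m) {s l' l : ℕ} (h : SplitP m k s l' l) {o o' : JF → ℕ}
    (hM : (MSp m k l' l o o').Ok (Mk m k)) (w : Key → ℕ) (x : JF → ℕ) :
    c0 m k l' w x = Pool.Agent.Helper54.T5.cdQ (MSp m k l' l o o') hM (QT m k (sL m k l))
      (gS m k s l' w) w (lowJ x) (fun f => x (Sum.inr f.succ)) := by
  have hcd : ∀ i, (((MSp m k l' l o o').cd' hM w (lowJ x) : ℕ) :
      ZMod (pJ k (sL m k l) i ^ aJ m k (sL m k l) (ef m k l' 0) i)) =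
      Lg (pJ k (sL m k l) i) (aJ m k (sL m k l) (ef m k l' 0) i) (lowJ x i) +
        ((w (keyL m k l' i (lowJ x)) : ℕ) :
          ZMod (pJ k (sL m k l) i ^ aJ m k (sL m k l) (ef m k l' 0) i)) := by
    intro i
    exact cv_cast_comp hM.prime hM.inj (MSp m k l' l o o').e' _ i
  unfold Pool.Agent.Helper54.T5.cdQ
  have hN : (MSp m k l' l o o').Ne' = Jn m k (s + 1) (ef m k l' 0) := by
    show Jn m k (sL m k l) (ef m k l' 0) = _
    rw [h.s1]
  rw [hN, h.s1]
  refine h.c0_eq_crt hm w x _ _ ?_ ?_ ?_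
  · intro f
    have h1 := hcd (Sum.inl f)
    have h2 : keyL m k l' (Sum.inl f) (lowJ x) =
        Key.J l' (Sum.inl f) (maskJ (preJ m k l' (Sum.inl f)) x) := by
      show Key.J l' (Sum.inl f) (maskJ (preJ m k l' (Sum.inl f)) (lowJ x)) = _
      rw [maskJ_lowJ]
    rw [h2] at h1
    exact cast_congr2 (pJ_inl k (sL m k l) f) (aJ_inl m k (sL m k l) _ f) h1
  · exact cast_congr2 (pJ_buf k (sL m k l)) (aJ_buf m k (sL m k l) _) (hcd (Sum.inr 0))
  · intro f
    exact gS_cast m k s l' w (fun f => x (Sum.inr f.succ)) f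

end Pool.Agent.Helper48.T5b
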