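import Pool.Agent.Helper98.T5b.SplitInst
import Pool.Agent.Helper48.T5b.EvDig
import Pool.Agent.Helper12.T5b.NumS3c

/-!
# T5b (MP_12a1af), (S2): the numbers of `Helper98.T5b.mult_inst`

`s2_fin`: for a late pair across SPLIT with `l - l' ≤ 8 SS m (sL m k l')` whose front of the size
`SS m (sL m k l')` has jumped, all number hypotheses of `mult_inst` hold with
`ρ1 = ρ2 = exp (- SS m (sL m k l') / 64)`.
-/

set_option autoImplicit false

namespace Pool.Agent.Helper48.T5b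

open Finset Pool.Agent.Helper27.T4 Pool.Agent.Helper37.T5b
open Pool.Agent.Helper5.ET (pr pr_prime pr_inj bb era own cnt Nj ordK iso pre mask)
open Pool.Agent.Helper27.T5b Pool.Agent.Helper30.T5b
open Pool.Agent.Helper22.HW Pool.Agent.Helper57.T5 Pool.Agent.Helper39.T5
open Pool.Agent.Helper84.T5b (JF Key pJ aJ Jn mL sL bL rL QQ ef FF cmp0 c0 XJ okeyF okey Ss cs Ys Un
  Vw pJ_prime pJ_inj preJ maskJ Mk)
open Pool.Agent.Helper54.T5b (SplitDig lowJ keyL MSp)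
open Pool.Agent.Helper98.T5b (M0)
open Pool.Agent.Helper27.T5 (gw)

variable {m k : ℕ}

/-! ## the number of labels in a class, exactly -/

/-- the exponent of the moving family -/
theorem Lam_le' (hm : 0 < m) {l' l : ℕ} (hl : l' < l)
    (h : SplitEv m k (mL m k l') (mL m k l)) :
    (M0 m k l' l).Lam ≤ 1000039 ^ (((l - l') - 2 * (ef m k l' 0 - l')) / 2) := by
  have hd := SplitDig_of hm hl h
  have hP := SplitP_of hm hl.le h
  have hgf : gf m (lv m k (era (mL m k l))) = fam (era (mL m k l)) := by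
    unfold gf
    rw [show kt m (lv m k (era (mL m k l)) + 1) = era (mL m k l) from h.spec]
  have h1 : (M0 m k l' l).Lam = ∏ i ∈ univ.erase (Sum.inl (fam (era (mL m k l) + 2)) : JF),
      pJ k (sL m k l) i ^ ((aJ m k (sL m k l) l i + aJ m k (sL m k l) l' i -
        2 * aJ m k (sL m k l) (ef m k l' 0) i) / 2) := rfl
  rw [h1]
  have h2 : ∀ i ∈ univ.erase (Sum.inl (fam (era (mL m k l) + 2)) : JF),
      i ≠ Sum.inl (fam (era (mL m k l))) → pJ k (sL m k l) i ^ ((aJ m k (sL m k l) l i +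
        aJ m k (sL m k l) l' i - 2 * aJ m k (sL m k l) (ef m k l' 0) i) / 2) = 1 := by
    intro i _ hi
    have h3 : aJ m k (sL m k l) l i = aJ m k (sL m k l) l' i := by
      rcases i with f | i
      · exact hd.stat l hd.ll.le hd.le f (fun hc => hi (by rw [hc]))
      · revert hi
        refine Fin.cases (fun _ => ?_) (fun f _ => ?_) i
        · exact hd.buf l hd.ll.le hd.le
        · rw [hd.nb0 l hd.ll.le hd.le f, hd.nb0 l' le_rfl (hd.ll.le.trans hd.le) f]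
    have h4 := Pool.Agent.Helper54.T5b.aJ_mono (m := m) (k := k) (s := sL m k l) hd.le' i
    have h5 : (aJ m k (sL m k l) l i + aJ m k (sL m k l) l' i -
        2 * aJ m k (sL m k l) (ef m k l' 0) i) / 2 = 0 := by
      rw [h3]
      omega
    rw [h5, pow_zero]
  rw [Finset.prod_eq_single_of_mem (Sum.inl (fam (era (mL m k l))))
    (mem_erase.2 ⟨fun hc => Pool.Agent.Helper54.T5b.fam_two_ne _ (Sum.inl.inj hc).symm,
      mem_univ _⟩) h2]
  have h6 : pJ k (sL m k l) (Sum.inl (fam (era (mL m k l)))) ≤ 1000039 := by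
    rw [Pool.Agent.Helper54.T5b.pJ_inl]
    exact (pr_lt_buf _).le
  have w1 := (hP.win l hl.le (Nat.le_add_right _ _)).ct_gf hm
  have w2 := (hP.win_ef' hm 0).ct_gf hm
  rw [hgf] at w1 w2
  have h7 : (aJ m k (sL m k l) l (Sum.inl (fam (era (mL m k l)))) +
      aJ m k (sL m k l) l' (Sum.inl (fam (era (mL m k l)))) -
        2 * aJ m k (sL m k l) (ef m k l' 0) (Sum.inl (fam (era (mL m k l))))) / 2 =
      ((l - l') - 2 * (ef m k l' 0 - l')) / 2 := by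
    rw [Pool.Agent.Helper54.T5b.aJ_inl, Pool.Agent.Helper54.T5b.aJ_inl,
      Pool.Agent.Helper54.T5b.aJ_inl]
    change (cT m k (Sum.inl (fam (era (mL m k l)))) l +
      cT m k (Sum.inl (fam (era (mL m k l)))) l' -
      2 * cT m k (Sum.inl (fam (era (mL m k l)))) (ef m k l' 0)) / 2 = _
    rw [w1, w2]
    omega
  rw [h7]
  exact Nat.pow_le_pow_left h6 _

/-! ## sizes of the families of a triple -/

/-- every family of a late triple is much larger than the levels below -/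
theorem QF_big (hm : 0 < m) {k s : ℕ} (hY : BP k ≤ SS m s) (f : Fin 3) :
    (10 ^ 6) ^ (40 * SS m s) ≤ pz k (s + 1) f ^ zf m k (s + 1) f := by
  have h1 := lt_QF_mul m k (s + 1) f
  have h2 := eight_mul_dz hm (s + 1) f
  have h3 := SS_add_Sg m (s + 1)
  rw [Nat.add_sub_cancel] at h3
  have h4 := SS_succ_ge hm s
  have h5 : 2 ≤ gw f := by
    fin_cases f <;> simp [gw]
  have h6 : 50 * SS m s ≤ dz m (s + 1) f := by
    have e : (2 : ℕ) ^ 250 * SS m s = 1000 * SS m s + (2 ^ 250 - 1000) * SS m s := by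
      rw [← Nat.add_mul]
      norm_num
    have h7 : 2 * Sg m (s + 1) ≤ gw f * Sg m (s + 1) := Nat.mul_le_mul_right _ h5
    omega
  have h8 : pz k (s + 1) f ≤ (10 ^ 6) ^ (10 * SS m s) := by
    refine (pz_le k (s + 1) f).trans (hY.trans ?_)
    have e1 : SS m s < (10 ^ 6) ^ SS m s := Nat.lt_pow_self (by norm_num)
    refine e1.le.trans (Nat.pow_le_pow_right (by norm_num) (by omega))
  have h9 : QF m k (s + 1) f = pz k (s + 1) f ^ zf m k (s + 1) f := rfl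
  rw [← h9]
  have h10 : (10 ^ 6) ^ (40 * SS m s) * (10 ^ 6) ^ (10 * SS m s) <
      QF m k (s + 1) f * (10 ^ 6) ^ (10 * SS m s) := by
    rw [← pow_add]
    refine lt_of_le_of_lt (Nat.pow_le_pow_right (by norm_num) ?_)
      (h1.trans_le (Nat.mul_le_mul_left _ h8))
    omega
  exact (lt_of_mul_lt_mul_right h10 (Nat.zero_le _)).le

/-! ## real numbers -/

theorem exp_le_pow (N : ℕ) : Real.exp (13 * N) ≤ (10 ^ 6 : ℝ) ^ N := by
  have h1 : Real.exp 13 ≤ 10 ^ 6 := by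
    have e : Real.exp 13 = Real.exp 1 ^ 13 := by
      rw [← Real.exp_nat_mul]
      norm_num
    rw [e]
    calc Real.exp 1 ^ 13 ≤ (2.7182818286 : ℝ) ^ 13 :=
        pow_le_pow_left₀ (Real.exp_pos _).le Real.exp_one_lt_d9.le _
      _ ≤ 10 ^ 6 := by norm_num
  have h2 : Real.exp (13 * N) = Real.exp 13 ^ N := by
    rw [← Real.exp_nat_mul]
    congr 1
    ring
  rw [h2]
  exact pow_le_pow_left₀ (Real.exp_pos _).le h1 _

/-- `c C ≤ exp (-δ / 64) (10 ^ 6) ^ N` for `600 N ≥ δ` and large `δ` -/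
theorem num_aux {C δ N : ℕ} (hδ : 8000 * C ≤ δ) (hN : δ ≤ 600 * N) :
    12 * (C : ℝ) ≤ Real.exp (-(δ : ℝ) / 64) * (10 ^ 6 : ℝ) ^ N := by
  have h1 := exp_le_pow N
  have h2 : (8000 : ℝ) * C ≤ δ := by exact_mod_cast hδ
  have h3 : (δ : ℝ) ≤ 600 * N := by exact_mod_cast hN
  have h4 : Real.exp (-(δ : ℝ) / 64) * Real.exp (13 * N) ≤
      Real.exp (-(δ : ℝ) / 64) * (10 ^ 6 : ℝ) ^ N :=
    mul_le_mul_of_nonneg_left h1 (Real.exp_pos _).le
  refine le_trans ?_ h4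
  rw [← Real.exp_add]
  have h5 : (6 : ℝ) / 1000 * δ ≤ -(δ : ℝ) / 64 + 13 * N := by
    have h6 : (13 : ℝ) / 600 * δ ≤ 13 * N := by linarith
    have h7 : (0 : ℝ) ≤ δ := Nat.cast_nonneg _
    nlinarith
  have h8 := Real.add_one_le_exp ((6 : ℝ) / 1000 * δ)
  have h9 := Real.exp_le_exp.2 h5
  have h10 : (0 : ℝ) ≤ C := Nat.cast_nonneg _
  linarith

/-! ## the final numbers -/

/-- **the numbers of (S2)** -/
theorem s2_fin (hm : 0 < m) (k : ℕ) : ∃ l0 : ℕ, ∀ l' l, l0 ≤ l' → l' < l →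
    SplitEv m k (mL m k l') (mL m k l) → l - l' ≤ 8 * SS m (sL m k l') →
    ez m (sL m k l') l' ≠ ez m (sL m k l') l →
    (∀ f, zf m k (sL m k l) f ≠ 0) ∧ QQ m k (sL m k l) 0 ≤ (M0 m k l' l).q ∧
    FF m k l 0 ≤ FF m k l' 0 ∧
    ((M0 m k l' l).C * (M0 m k l' l).Lam *
      (Real.sqrt (pz k (sL m k l) 2 ^ zf m k (sL m k l) 2 : ℕ) /
        Real.sqrt (QQ m k (sL m k l) 0 : ℕ)) *
      (4 * (Jn m k (sL m k l) (ef m k l' 0) : ℝ) / FF m k l 1 + 2) ≤
        Real.exp (-(SS m (sL m k l') : ℝ) / 64)) ∧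
    ((M0 m k l' l).C * (M0 m k l' l).Lam *
      (4 * (Jn m k (sL m k l) (ef m k l' 0) : ℝ) / FF m k l 1 +
        2 / (pz k (sL m k l) 2 ^ zf m k (sL m k l) 2 : ℕ)) ≤
        Real.exp (-(SS m (sL m k l') : ℝ) / 64)) := by
  obtain ⟨la, hq⟩ := Pool.Agent.Helper12.T5b.exists_q hm k
  obtain ⟨lb, C1, hJ⟩ := Pool.Agent.Helper12.T5b.exists_Jn_upper hm k
  obtain ⟨lc, hS⟩ := Pool.Agent.Helper12.T5b.exists_SS_large hm k
    (8000 * (2 * BP k) ^ 7 + BP k + C1 + 10000)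
  refine ⟨max la (max lb lc), fun l' l hl0 hl hev hD hne => ?_⟩
  simp only [max_le_iff] at hl0
  obtain ⟨l1, l2, l3⟩ := hl0
  have hd := SplitDig_of hm hl hev
  have hP := SplitP_of hm hl.le hev
  have hLam := Lam_le' hm hl hev
  set s := lv m k (era (mL m k l)) with hs
  have hs' : sL m k l' = s := hP.s'
  have hs1 : sL m k l = s + 1 := hP.s1
  rw [hs'] at hD hne
  rw [hs', hs1]
  have hδ := hS l' l3
  rw [hs'] at hδ
  set δ := SS m s with hδd
  have hBP : BP k ≤ δ := by omega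
  have hQF := fun f => QF_big hm hBP f
  have hPZ := PZ_mul hm s
  have hSS := SS_succ_ge hm s
  have hSS' : 2 ^ 20 * δ ≤ SS m (s + 1) := by
    refine le_trans (Nat.mul_le_mul_right _ (Nat.pow_le_pow_right (by norm_num) (by norm_num))) hSS
  -- the fronts
  have e1 : ef m k l' 0 = ez m s l' := by
    have := hP.ef_lower 0
    simpa using this
  have e2 : ef m k l 1 = ez m s l := by
    have := hP.ef_upper 1
    simpa using this
  have e3 : ef m k l 0 = ez m (s + 1) l := by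
    have := hP.ef_upper 0
    simpa using this
  have a1 := lt_ez hm s l'
  have a2 := lt_ez hm s l
  have a3 := lt_ez_sub hm s l
  have a4 := ez_add_step hl.le hne
  have a5 := ez_sub_le hm (s + 1) l
  have a6 := lt_ez hm (s + 1) l
  rw [e1] at hLam
  rw [e1]
  set e' := ez m s l' with he'
  set x := ez m s l with hx
  set u := ((l - l') - 2 * (e' - l')) / 2 with hu
  have hJu : 512 * u + δ ≤ 512 * (x - e') := by omega
  have hu4 : u ≤ 4 * δ := by omega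
  -- moduli
  have hC : ∀ z, l' ≤ z → z ≤ ez m (s + 1) l →
      NL m k z = RT m k (s + 1) * Jn m k (s + 1) z := by
    intro z z1 z2
    refine NL_eq_Jn ((hP.win z z1 ?_).cpl_succ hm hs'.ge)
    have := ez_le_SS hm (s + 1) l
    omega
  have hxe : x ≤ ez m (s + 1) l := by
    rw [hx]
    exact ez_le hm (Nat.le_succ s) l
  have hFF1 : FF m k l 1 = Jn m k (s + 1) x := by
    have := hP.FF_upper 1
    rw [this]
    simp [hx]
  have hratio : Jn m k (s + 1) e' * (10 ^ 6) ^ (x - e') ≤ FF m k l 1 := by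
    rw [hFF1]
    exact Pool.Agent.Helper12.T5b.Jn_lower (hC e' a1.le (by omega)) (hC x (by omega) hxe)
      (by omega)
  have hJpos : 0 < Jn m k (s + 1) e' := Jn_pos _ _ _ _
  have hFpos : 0 < FF m k l 1 := by
    rw [hFF1]
    exact Jn_pos _ _ _ _
  -- the constants
  have hCle : (M0 m k l' l).C ≤ (2 * BP k) ^ 7 :=
    Pool.Agent.Helper12.T5b.MSp_C_le (m := m) (l' := l') (l := l) (o := 0) (o' := 0)
  have hCδ : 8000 * (M0 m k l' l).C ≤ δ := by omega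
  set n := u + u / 100000 + 1 with hn
  have hΛ : (M0 m k l' l).Lam ≤ (10 ^ 6) ^ n := by
    refine hLam.trans (buf_pow_le _ _ ?_)
    omega
  have hnJ : δ ≤ 600 * ((x - e') - n) := by omega
  have hnJ' : n ≤ x - e' := by omega
  have hn5 : n ≤ 5 * δ := by omega
  have hΛ5 : (M0 m k l' l).Lam ≤ (10 ^ 6) ^ (5 * δ) :=
    hΛ.trans (Nat.pow_le_pow_right (by norm_num) hn5)
  -- real versions
  set C : ℝ := ((M0 m k l' l).C : ℝ) with hCr
  set Λ : ℝ := ((M0 m k l' l).Lam : ℝ) with hΛr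
  have hC0 : 0 ≤ C := Nat.cast_nonneg _
  have hΛ0 : 0 ≤ Λ := Nat.cast_nonneg _
  set E := Real.exp (-(δ : ℝ) / 64) with hE
  have hE0 : 0 < E := Real.exp_pos _
  have b1 : 12 * C ≤ E * (10 ^ 6 : ℝ) ^ ((x - e') - n) := num_aux hCδ hnJ
  have b2 : 12 * C ≤ E * (10 ^ 6 : ℝ) ^ (35 * δ) := num_aux hCδ (by omega)
  have hΛR : Λ ≤ (10 ^ 6 : ℝ) ^ n := by
    rw [hΛr]
    exact_mod_cast hΛ
  have hΛR5 : Λ ≤ (10 ^ 6 : ℝ) ^ (5 * δ) := by
    rw [hΛr]
    exact_mod_cast hΛ5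
  have hFR : (0 : ℝ) < FF m k l 1 := by exact_mod_cast hFpos
  have hrR : (Jn m k (s + 1) e' : ℝ) * (10 ^ 6) ^ (x - e') ≤ FF m k l 1 := by
    exact_mod_cast hratio
  have hT0 : ∀ N : ℕ, (0 : ℝ) < (10 ^ 6 : ℝ) ^ N := fun N => pow_pos (by norm_num) N
  have hratio' : (Jn m k (s + 1) e' : ℝ) / FF m k l 1 ≤ 1 / (10 ^ 6) ^ (x - e') := by
    rw [div_le_div_iff₀ hFR (hT0 _)]
    linarith
  have hratio1 : (Jn m k (s + 1) e' : ℝ) / FF m k l 1 ≤ 1 := by
    refine hratio'.trans ?_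
    rw [div_le_one (hT0 _)]
    exact one_le_pow₀ (by norm_num)
  have hratio0 : (0 : ℝ) ≤ (Jn m k (s + 1) e' : ℝ) / FF m k l 1 :=
    div_nonneg (Nat.cast_nonneg _) (Nat.cast_nonneg _)
  have hr4 : 4 * (Jn m k (s + 1) e' : ℝ) / FF m k l 1 =
      4 * ((Jn m k (s + 1) e' : ℝ) / FF m k l 1) := by ring
  have hQFR : ∀ f, (10 ^ 6 : ℝ) ^ (40 * δ) ≤ ((pz k (s + 1) f ^ zf m k (s + 1) f : ℕ) : ℝ) :=
    fun f => by exact_mod_cast hQF f
  -- `C Λ (Jn / FF) ≤ E / 12`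
  have c1 : 12 * (C * Λ * ((Jn m k (s + 1) e' : ℝ) / FF m k l 1)) ≤ E := by
    have h1 : Λ * ((Jn m k (s + 1) e' : ℝ) / FF m k l 1) ≤
        (10 ^ 6 : ℝ) ^ n * (1 / (10 ^ 6) ^ (x - e')) :=
      mul_le_mul hΛR hratio' hratio0 (hT0 _).le
    have h2 : (10 ^ 6 : ℝ) ^ n * (1 / (10 ^ 6) ^ (x - e')) = 1 / (10 ^ 6) ^ ((x - e') - n) := by
      have h3 : (10 ^ 6 : ℝ) ^ (x - e') = (10 ^ 6) ^ n * (10 ^ 6) ^ ((x - e') - n) := by
        rw [← pow_add]
        congr 1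
        omega
      rw [h3]
      field_simp
    rw [h2] at h1
    calc 12 * (C * Λ * ((Jn m k (s + 1) e' : ℝ) / FF m k l 1))
        = 12 * C * (Λ * ((Jn m k (s + 1) e' : ℝ) / FF m k l 1)) := by ring
      _ ≤ 12 * C * (1 / (10 ^ 6) ^ ((x - e') - n)) :=
        mul_le_mul_of_nonneg_left h1 (mul_nonneg (by norm_num) hC0)
      _ = 12 * C / (10 ^ 6) ^ ((x - e') - n) := by ring
      _ ≤ E := by
        rw [div_le_iff₀ (hT0 _)]
        exact b1
  -- `C Λ / (10 ^ 6) ^ (40 δ) ≤ E / 12`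
  have c2 : 12 * (C * Λ * (1 / (10 ^ 6) ^ (40 * δ))) ≤ E := by
    have h3 : (10 ^ 6 : ℝ) ^ (40 * δ) = (10 ^ 6) ^ (5 * δ) * (10 ^ 6) ^ (35 * δ) := by
      rw [← pow_add]
      congr 1
      omega
    have h1 : Λ * (1 / (10 ^ 6) ^ (40 * δ)) ≤ 1 / (10 ^ 6) ^ (35 * δ) := by
      rw [h3]
      have h4 : (10 ^ 6 : ℝ) ^ (5 * δ) * (1 / ((10 ^ 6) ^ (5 * δ) * (10 ^ 6) ^ (35 * δ))) =
          1 / (10 ^ 6) ^ (35 * δ) := by
        field_simp
      rw [← h4]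
      exact mul_le_mul_of_nonneg_right hΛR5 (one_div_pos.2 (mul_pos (hT0 _) (hT0 _))).le
    calc 12 * (C * Λ * (1 / (10 ^ 6) ^ (40 * δ)))
        = 12 * C * (Λ * (1 / (10 ^ 6) ^ (40 * δ))) := by ring
      _ ≤ 12 * C * (1 / (10 ^ 6) ^ (35 * δ)) :=
        mul_le_mul_of_nonneg_left h1 (mul_nonneg (by norm_num) hC0)
      _ = 12 * C / (10 ^ 6) ^ (35 * δ) := by ring
      _ ≤ E := by
        rw [div_le_iff₀ (hT0 _)]
        exact b2
  refine ⟨fun f hf => ?_, ?_, ?_, ?_, ?_⟩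
  · have h1 := hQF f
    rw [hf, pow_zero] at h1
    have h2 : 1 < (10 ^ 6) ^ (40 * δ) := Nat.one_lt_pow (by omega) (by norm_num)
    exact absurd h1 (not_le.2 h2)
  · have h1 := (hq l' l 0 0 l1 hd (by rw [hs1]; omega) (by rw [hs1]; exact hC)).1
    rw [hs1] at h1
    exact h1
  · -- `FF l 0 ≤ FF l' 0`
    have h1 : FF m k l 0 = Jn m k (s + 1) (ez m (s + 1) l) := by
      have := hP.FF_upper 0
      simpa using this
    have h2 : FF m k l' 0 = Jn m k (s + 1) e' * QT m k (s + 1) := by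
      have := hP.FF_lower hm 0
      rw [this]
      simp [SplitP.Gf, he']
    rw [h1, h2]
    have h3 := SS_add_Sg m (s + 1)
    rw [Nat.add_sub_cancel] at h3
    have h4 := hJ (s + 1) e' (ez m (s + 1) l) (Sg m (s + 1) - 3 * δ) (by omega) (by omega)
      (hC e' a1.le (by omega)) (hC _ (by omega) le_rfl) (by omega)
    refine h4.trans (Nat.mul_le_mul_left _ ?_)
    have h5 := le_QT_mul hm k (s + 1)
    have h6 : BP k ^ 3 ≤ (10 ^ 6) ^ (3 * δ) := by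
      have e4 : BP k ≤ (10 ^ 6) ^ δ := hBP.trans (Nat.lt_pow_self (by norm_num)).le
      calc BP k ^ 3 ≤ ((10 ^ 6) ^ δ) ^ 3 := Nat.pow_le_pow_left e4 3
        _ = (10 ^ 6) ^ (3 * δ) := by
          rw [← pow_mul]
          congr 1
          ring
    have h7 : (10 ^ 6) ^ (Sg m (s + 1) - 3 * δ) * (10 ^ 6) ^ (3 * δ) ≤
        QT m k (s + 1) * (10 ^ 6) ^ (3 * δ) := by
      rw [← pow_add, Nat.sub_add_cancel (by omega)]
      exact h5.trans (Nat.mul_le_mul_left _ h6)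
    exact Nat.le_of_mul_le_mul_right h7 (pow_pos (by norm_num) _)
  · -- `h1`
    have h0 : (QQ m k (s + 1) 0 : ℝ) = ((pz k (s + 1) 0 ^ zf m k (s + 1) 0 : ℕ) : ℝ) *
        ((pz k (s + 1) 1 ^ zf m k (s + 1) 1 : ℕ) : ℝ) *
        ((pz k (s + 1) 2 ^ zf m k (s + 1) 2 : ℕ) : ℝ) := by
      have h1 : QQ m k (s + 1) 0 = (pz k (s + 1) 0 ^ zf m k (s + 1) 0) *
          (pz k (s + 1) 1 ^ zf m k (s + 1) 1) * (pz k (s + 1) 2 ^ zf m k (s + 1) 2) :=
        Fin.prod_univ_three _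
      rw [h1]
      push_cast
      ring
    have h2 : Real.sqrt ((pz k (s + 1) 2 ^ zf m k (s + 1) 2 : ℕ) : ℝ) * (10 ^ 6) ^ (40 * δ) ≤
        Real.sqrt (QQ m k (s + 1) 0 : ℕ) := by
      have h3 : ((10 ^ 6 : ℝ) ^ (40 * δ)) = Real.sqrt (((10 ^ 6 : ℝ) ^ (40 * δ)) ^ 2) :=
        (Real.sqrt_sq (hT0 _).le).symm
      rw [h3, ← Real.sqrt_mul (Nat.cast_nonneg _)]
      apply Real.sqrt_le_sqrt
      rw [h0, mul_comm]
      refine mul_le_mul_of_nonneg_right ?_ (Nat.cast_nonneg _)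
      rw [sq]
      exact mul_le_mul (hQFR 0) (hQFR 1) (hT0 _).le (Nat.cast_nonneg _)
    have hsq0 : 0 < Real.sqrt (QQ m k (s + 1) 0 : ℕ) := by
      apply Real.sqrt_pos.2
      exact_mod_cast QQ_pos m k (s + 1) 0
    have h3 : Real.sqrt ((pz k (s + 1) 2 ^ zf m k (s + 1) 2 : ℕ) : ℝ) /
        Real.sqrt (QQ m k (s + 1) 0 : ℕ) ≤ 1 / (10 ^ 6) ^ (40 * δ) := by
      rw [div_le_div_iff₀ hsq0 (hT0 _), one_mul]
      exact h2
    have h4 : 4 * (Jn m k (s + 1) e' : ℝ) / FF m k l 1 + 2 ≤ 6 := by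
      rw [hr4]
      linarith
    have h5 : C * Λ * (Real.sqrt ((pz k (s + 1) 2 ^ zf m k (s + 1) 2 : ℕ) : ℝ) /
        Real.sqrt (QQ m k (s + 1) 0 : ℕ)) ≤ C * Λ * (1 / (10 ^ 6) ^ (40 * δ)) :=
      mul_le_mul_of_nonneg_left h3 (mul_nonneg hC0 hΛ0)
    have h6 : 0 ≤ C * Λ * (1 / (10 ^ 6) ^ (40 * δ)) :=
      mul_nonneg (mul_nonneg hC0 hΛ0) (one_div_pos.2 (hT0 _)).le
    calc C * Λ * (Real.sqrt ((pz k (s + 1) 2 ^ zf m k (s + 1) 2 : ℕ) : ℝ) /
        Real.sqrt (QQ m k (s + 1) 0 : ℕ)) * (4 * (Jn m k (s + 1) e' : ℝ) / FF m k l 1 + 2)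
        ≤ (C * Λ * (1 / (10 ^ 6) ^ (40 * δ))) * 6 :=
          mul_le_mul h5 h4 (by
            rw [hr4]
            linarith) h6
      _ ≤ E := by linarith
  · -- `h2`
    have h1 : (2 : ℝ) / ((pz k (s + 1) 2 ^ zf m k (s + 1) 2 : ℕ) : ℝ) ≤
        2 * (1 / (10 ^ 6) ^ (40 * δ)) := by
      rw [mul_one_div]
      exact div_le_div_of_nonneg_left (by norm_num) (hT0 _) (hQFR 2)
    have h2 : C * Λ * (4 * (Jn m k (s + 1) e' : ℝ) / FF m k l 1 +
        2 / ((pz k (s + 1) 2 ^ zf m k (s + 1) 2 : ℕ) : ℝ)) ≤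
        C * Λ * (4 * ((Jn m k (s + 1) e' : ℝ) / FF m k l 1) +
          2 * (1 / (10 ^ 6) ^ (40 * δ))) := by
      refine mul_le_mul_of_nonneg_left ?_ (mul_nonneg hC0 hΛ0)
      rw [hr4]
      linarith
    refine h2.trans ?_
    have h3 : C * Λ * (4 * ((Jn m k (s + 1) e' : ℝ) / FF m k l 1) +
          2 * (1 / (10 ^ 6) ^ (40 * δ))) =
        4 * (C * Λ * ((Jn m k (s + 1) e' : ℝ) / FF m k l 1)) +
          2 * (C * Λ * (1 / (10 ^ 6) ^ (40 * δ))) := by ring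
    rw [h3]
    linarith

end Pool.Agent.Helper48.T5b
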