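import Pool.Agent.Helper48.T5b.EvSplit
import Pool.Agent.Helper66.T5.BotU

/-!
# T5b (MP_12a1af): integers across a DROP

Before the DROP the state has `k + 1` static levels, after it `k`.  The innermost level of the lower
state and its window form one window `unit * winU Y μ f Q V'`.
-/

set_option autoImplicit false

namespace Pool.Agent.Helper48.T5b

open Finset Pool.Agent.Helper27.T4 Pool.Agent.Helper37.T5b
open Pool.Agent.Helper5.ET (pr pr_prime pr_inj bb era own cnt Nj ordK iso pre mask)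
open Pool.Agent.Helper27.T5b Pool.Agent.Helper30.T5b
open Pool.Agent.Helper22.HW Pool.Agent.Helper57.T5 Pool.Agent.Helper39.T5
open Pool.Agent.Helper84.T5b (JF Key pJ aJ Jn mL sL bL rL QQ ef FF cmp0 c0 XJ okeyF okey Ss cs Ys Un
  Vw pJ_prime pJ_inj preJ maskJ Mk el AA)
open Pool.Agent.Helper66.T5 (winU)

variable {m k : ℕ}

/-! ## the set of a state with a prescribed number of levels -/

/-- the elements with `r` static levels and the window `U` -/
noncomputable def AAr (m k l : ℕ) (w : Key → ℕ) (r : ℕ) (U : Finset ℕ) : Finset ℕ :=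
  ((XJ m k l ×ˢ Fintype.piFinset (fun t : Fin r => Ys m k l t)) ×ˢ U).image
    (fun q => (c0 m k l w q.1.1 + ∑ t : Fin r, cs m k l t w (okey m k l t q.1.1) (q.1.2 t)) + q.2)

theorem AA_eq_AAr (m k l : ℕ) (w : Key → ℕ) : AA m k l w =
    AAr m k l w (rL m k l) ((Vw m k l w).image (fun v => Un m k l * v)) := rfl

theorem okey_pos {l t : ℕ} (ht : 0 < t) (x : JF → ℕ) : okey m k l t x = 0 := if_neg ht.ne'

/-- the innermost level can be moved into the window -/
theorem AAr_succ (l : ℕ) (w : Key → ℕ) {r : ℕ} (hr : 0 < r) (U : Finset ℕ) :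
    AAr m k l w (r + 1) U = AAr m k l w r
      ((Ys m k l r ×ˢ U).image (fun q => cs m k l r w 0 q.1 + q.2)) := by
  ext a
  unfold AAr
  simp only [mem_image, mem_product, Fintype.mem_piFinset]
  constructor
  · rintro ⟨⟨⟨x, y⟩, u⟩, ⟨⟨hx, hy⟩, hu⟩, rfl⟩
    refine ⟨((x, fun t => y t.castSucc), cs m k l r w 0 (y (Fin.last r)) + u), ⟨⟨hx, fun t => ?_⟩,
      ⟨(y (Fin.last r), u), ⟨?_, hu⟩, rfl⟩⟩, ?_⟩
    · simpa using hy t.castSucc
    · simpa using hy (Fin.last r)
    · simp only [Fin.sum_univ_castSucc, Fin.val_castSucc, Fin.val_last]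
      rw [okey_pos hr x]
      ring
  · rintro ⟨⟨⟨x, y⟩, u⟩, ⟨⟨hx, hy⟩, ⟨⟨z, v⟩, ⟨hz, hv⟩, hzv⟩⟩, rfl⟩
    refine ⟨((x, Fin.snoc (α := fun _ => Fin 3 → ℕ) y z), v), ⟨⟨hx, fun t => ?_⟩, hv⟩, ?_⟩
    · refine Fin.lastCases ?_ (fun t => ?_) t
      · simpa using hz
      · simpa using hy t
    · simp only at hzv ⊢
      simp only [Fin.sum_univ_castSucc, Fin.val_castSucc, Fin.val_last, Fin.snoc_castSucc,
        Fin.snoc_last]
      rw [okey_pos hr x, ← hzv]
      ring

/-! ## the window of the innermost level -/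

/-- the number of the code of the level `t`: `cs = FF (t + 1) * LL t * mS` -/
noncomputable def mS (m k l t : ℕ) (w : Key → ℕ) (o : JF → ℕ) (y : Fin 3 → ℕ) : ℕ :=
  cs m k l t w o y / (FF m k l (t + 1) * LL (QQ m k (sL m k l)) t)

theorem cs_eq_mS (m k l t : ℕ) (w : Key → ℕ) (o : JF → ℕ) (y : Fin 3 → ℕ) :
    cs m k l t w o y = FF m k l (t + 1) * LL (QQ m k (sL m k l)) t * mS m k l t w o y :=
  (Nat.mul_div_cancel' (cs_dvd m k l t w o y)).symm

theorem mS_lt (m k l t : ℕ) (w : Key → ℕ) (o : JF → ℕ) (y : Fin 3 → ℕ) :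
    mS m k l t w o y < QQ m k (sL m k l) t := by
  have h1 := cs_lt m k l t w o y
  rw [LL_succ, ← mul_assoc] at h1
  exact Nat.div_lt_of_lt_mul h1

/-- the quotient of a front by the modulus of the state -/
noncomputable def fR (m k l t : ℕ) : ℕ := FF m k l t / Jn m k (sL m k l) l

theorem fR_mul (hm : 0 < m) (l t : ℕ) : Jn m k (sL m k l) l * fR m k l t = FF m k l t :=
  Nat.mul_div_cancel' (Jn_dvd_FF hm le_rfl t)

theorem fR_pos (hm : 0 < m) (l t : ℕ) : 0 < fR m k l t := by
  have h1 := fR_mul (k := k) hm l t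
  have h2 := FF_pos m k l t
  rw [← h1] at h2
  exact Nat.pos_of_mul_pos_left h2

/-- **one level and the window below it** -/
theorem level_window (hm : 0 < m) (l t : ℕ) (w : Key → ℕ) (o : JF → ℕ) (y : Fin 3 → ℕ) (v : ℕ) :
    cs m k l t w o y + Jn m k (sL m k l) l * LL (QQ m k (sL m k l)) (t + 1) * v =
      Jn m k (sL m k l) l * LL (QQ m k (sL m k l)) t *
        (fR m k l (t + 1) * mS m k l t w o y + QQ m k (sL m k l) t * v) := by
  have h1 := cs_eq_mS m k l t w o y
  have h2 := fR_mul (k := k) hm l (t + 1)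
  rw [h1, LL_succ, ← h2]
  ring

/-! ## DROP -/

/-- the data of a DROP -/
structure DropP (m k s l' l : ℕ) : Prop where
  kpos : 0 < k
  ks : k ≤ s
  le : l' ≤ l
  s' : sL m k l' = s + 1
  s1 : sL m k l = s + 1
  b' : bL m k l' = s - k
  b1 : bL m k l = s + 1 - k
  win : ∀ x, l' ≤ x → x ≤ l + SS m (s + 1) → Win m k s l' x

/-- **from `DropEv`** -/
theorem DropP_of (hm : 0 < m) (hk0 : 0 < k) {l' l : ℕ} (hl : l' ≤ l)
    (hd : mL m k l < mL m k l' + ZZ m k (era (mL m k l)))
    (h : DropEv m k (mL m k l') (mL m k l)) : DropP m k (lv m k (era (mL m k l))) l' l := by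
  have hk := k_le_lv hm k (era (mL m k l))
  have h1 : nE m k (lv m k (era (mL m k l)) + 1) < mL m k l' := h.nE_lt
  have hb : bb 0 ≤ mL m k l' := by
    have a1 := bb_le_ut m (lv m k (era (mL m k l)) + 1)
    have a2 := ut_le_nE m k (lv m k (era (mL m k l)) + 1)
    have a3 := bb_strictMono.monotone (Nat.zero_le (kt m (lv m k (era (mL m k l)) + 1)))
    omega
  have h2 : mL m k l' < nD m k (lv m k (era (mL m k l)) + 1) := by
    by_contra hc
    have := (lt_dv_iff hm hk hb).2 (not_lt.1 hc)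
    rw [h.dv'] at this
    exact absurd this (lt_irrefl _)
  have h3 : ZZ m k (era (mL m k l)) = Zt m (lv m k (era (mL m k l)) + 1) := if_pos h.spec
  exact ⟨hk0, hk, hl, h.sv', h.sv, by
      show dv m k (mL m k l') - k = _
      rw [h.dv'], by
      show dv m k (mL m k l) - k = _
      rw [h.dv],
    fun x h4 h5 => Win_of_node hm hk hl h1 (by omega) h4 h5⟩

namespace DropP

variable {s l' l : ℕ}

theorem rL' (h : DropP m k s l' l) : rL m k l' = k + 1 := by
  have := h.ks
  unfold Pool.Agent.Helper84.T5b.rL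
  rw [h.s', h.b']
  omega

theorem rL1 (h : DropP m k s l' l) : rL m k l = k := by
  have := h.ks
  unfold Pool.Agent.Helper84.T5b.rL
  rw [h.s1, h.b1]
  omega

theorem win_ef (hm : 0 < m) (h : DropP m k s l' l) (t : ℕ) : Win m k s l' (ef m k l t) := by
  refine h.win _ (h.le.trans (lt_ef hm l t).le) ?_
  refine (ef_le hm l t).trans ?_
  rw [h.s1]
  exact ez_le_SS hm _ _

theorem win_ef' (hm : 0 < m) (h : DropP m k s l' l) (t : ℕ) : Win m k s l' (ef m k l' t) := by
  refine h.win _ (lt_ef hm l' t).le ?_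
  have h1 := ef_le (k := k) hm l' t
  rw [h.s'] at h1
  have h2 := ez_le_SS hm (s + 1) l'
  have h4 := h.le
  omega

/-- the innermost modulus of the lower state -/
theorem QQ_inner (h : DropP m k s l' l) : QQ m k (s + 1) k = QT m k (bL m k l) := by
  unfold Pool.Agent.Helper84.T5b.QQ
  rw [h.b1]

theorem bL_succ (h : DropP m k s l' l) : bL m k l = bL m k l' + 1 := by
  have := h.ks
  rw [h.b', h.b1]
  omega

/-- **the units** -/
theorem Un_lower (h : DropP m k s l' l) :
    Un m k l' = Jn m k (s + 1) l' * LL (QQ m k (s + 1)) k * QQ m k (s + 1) k := by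
  unfold Pool.Agent.Helper84.T5b.Un
  rw [h.s', h.rL', LL_succ]
  ring

theorem Un_upper (h : DropP m k s l' l) :
    Un m k l = Jn m k (s + 1) l * LL (QQ m k (s + 1)) k := by
  unfold Pool.Agent.Helper84.T5b.Un
  rw [h.s1, h.rL1]

/-- the window of the lower state, seen from `k` static levels -/
noncomputable def UD (m k l' : ℕ) (w : Key → ℕ) : Finset ℕ :=
  winU (Ys m k l' k) (fun y => mS m k l' k w 0 y) (fR m k l' (k + 1)) (QQ m k (sL m k l') k)
    (Vw m k l' w)

theorem UD_image (hm : 0 < m) (h : DropP m k s l' l) (w : Key → ℕ) :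
    ((Ys m k l' k ×ˢ (Vw m k l' w).image (fun v => Un m k l' * v)).image
      (fun q => cs m k l' k w 0 q.1 + q.2)) =
    (UD m k l' w).image (fun u => Jn m k (s + 1) l' * LL (QQ m k (s + 1)) k * u) := by
  have hU : Un m k l' = Jn m k (sL m k l') l' * LL (QQ m k (sL m k l')) (k + 1) := by
    rw [h.Un_lower, h.s', LL_succ]
    ring
  have key : ∀ y v, cs m k l' k w 0 y + Un m k l' * v =
      Jn m k (s + 1) l' * LL (QQ m k (s + 1)) k *
        (fR m k l' (k + 1) * mS m k l' k w 0 y + QQ m k (sL m k l') k * v) := by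
    intro y v
    rw [hU, level_window hm, h.s']
  ext a
  unfold UD Pool.Agent.Helper66.T5.winU
  simp only [mem_image, mem_product]
  constructor
  · rintro ⟨⟨y, u⟩, ⟨hy, v, hv, rfl⟩, rfl⟩
    exact ⟨_, ⟨(y, v), ⟨hy, hv⟩, rfl⟩, (key y v).symm⟩
  · rintro ⟨u, ⟨⟨y, v⟩, ⟨hy, hv⟩, rfl⟩, rfl⟩
    exact ⟨(y, Un m k l' * v), ⟨hy, v, hv, rfl⟩, key y v⟩

/-- **the lower state with `k` static levels and the window `unit * UD`** -/
theorem AA_lower (hm : 0 < m) (h : DropP m k s l' l) (w : Key → ℕ) :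
    AA m k l' w = AAr m k l' w k
      ((UD m k l' w).image (fun u => Jn m k (s + 1) l' * LL (QQ m k (s + 1)) k * u)) := by
  rw [AA_eq_AAr, h.rL', AAr_succ l' w h.kpos, h.UD_image hm w]

theorem AA_upper (h : DropP m k s l' l) (w : Key → ℕ) :
    AA m k l w = AAr m k l w k ((Vw m k l w).image
      (fun v => Jn m k (s + 1) l * LL (QQ m k (s + 1)) k * v)) := by
  rw [AA_eq_AAr, h.rL1, h.Un_upper]

/-- all fronts of the two states divide each other -/
theorem FF_dvd (h : DropP m k s l' l) (t : ℕ) : FF m k l' t ∣ FF m k l t :=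
  FF_dvd_FF' h.le (h.s'.trans h.s1.symm) t

theorem ct_ef (hm : 0 < m) (h : DropP m k s l' l) (t : ℕ) {f : Fin 3 ⊕ Option (ℕ × Fin 3)}
    (hf : f ≠ Sum.inl (gf m s)) : cT m k f (ef m k l t) = cT m k f l' :=
  (h.win_ef hm t).ct_eq hm hf

theorem ct_ef' (hm : 0 < m) (h : DropP m k s l' l) (t : ℕ) {f : Fin 3 ⊕ Option (ℕ × Fin 3)}
    (hf : f ≠ Sum.inl (gf m s)) : cT m k f (ef m k l' t) = cT m k f l' :=
  (h.win_ef' hm t).ct_eq hm hf

end DropP

end Pool.Agent.Helper48.T5b
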