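import Pool.Agent.Helper48.T5b.EvInt
import Pool.Agent.Helper22.SL.Defs

/-!
# T5b (MP_12a1af): the codes of the levels of a state
-/

set_option autoImplicit false

namespace Pool.Agent.Helper48.T5b

open Finset Pool.Agent.Helper27.T4 Pool.Agent.Helper37.T5b
open Pool.Agent.Helper5.ET (pr pr_prime pr_inj bb era own cnt Nj ordK iso pre mask)
open Pool.Agent.Helper27.T5b Pool.Agent.Helper30.T5b
open Pool.Agent.Helper22.HW Pool.Agent.Helper57.T5 Pool.Agent.Helper39.T5
open Pool.Agent.Helper84.T5b (JF Key pJ aJ Jn mL sL bL rL QQ ef FF cmp0 c0 XJ okeyF okey Ss cs Ys Un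
  Vw pJ_prime pJ_inj preJ maskJ Mk)
open Pool.Agent.Helper22.SL (rk3)

variable {m k : ℕ}

/-! ## coprimality with the primes of a triple -/

theorem cop_J0_pz (m k x t : ℕ) (f : Fin 3) : Nat.Coprime (J0 m k x) (pz k t f) := by
  unfold J0
  apply Nat.Coprime.mul_left
  · apply Nat.Coprime.prod_left
    intro g _
    exact (cop_pr_pz k t g f).pow_left _
  · exact (cop_buffer_pz k t f).pow_left _

theorem cop_TJ_pz {s t : ℕ} (h : s % (k + 3) ≠ t % (k + 3)) (x : ℕ) (f : Fin 3) :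
    Nat.Coprime (TJ m k s x) (pz k t f) := by
  unfold TJ
  apply Nat.Coprime.prod_left
  intro g _
  exact (cop_pz_pz h g f).pow_left _

theorem cop_QT_pz {s t : ℕ} (h : s % (k + 3) ≠ t % (k + 3)) (f : Fin 3) :
    Nat.Coprime (QT m k s) (pz k t f) := by
  unfold QT QF
  apply Nat.Coprime.prod_left
  intro g _
  exact (cop_pz_pz h g f).pow_left _

theorem cop_Jn_pz {s t x : ℕ} (h1 : t ≤ s) (h2 : s < t + (k + 2)) (f : Fin 3) :
    Nat.Coprime (Jn m k s x) (pz k t f) := by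
  rw [Jn_eq]
  exact Nat.Coprime.mul_left (cop_J0_pz m k x t f)
    (cop_TJ_pz (mod_ne (by omega) (by omega)).symm x f)

theorem cop_LL_pz {s t : ℕ} (ht : t ≤ s) (htk : t ≤ k + 2) (f : Fin 3) :
    Nat.Coprime (LL (QQ m k s) t) (pz k (s - t) f) := by
  unfold LL
  apply Nat.Coprime.prod_left
  intro i hi
  rw [mem_range] at hi
  exact cop_QT_pz (mod_ne (by omega) (by omega)).symm f

/-! ## the static levels -/

/-- number of digits of a static level -/
theorem rL_le_succ (hm : 0 < m) {l t : ℕ} (ht : t < rL m k l) : t ≤ k :=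
  Nat.lt_succ_iff.1 (ht.trans_le (rL_bounds hm k l).2)

theorem FF_pos (m k l t : ℕ) : 0 < FF m k l t := Jn_pos _ _ _ _

theorem NN_pz (m k t : ℕ) : NN (pz k t) (zf m k t) = QT m k t := rfl

/-- the requirements of `Side` for the static level `t` -/
theorem Ss_ok (hm : 0 < m) {l t : ℕ} (ht : t < rL m k l) (o : JF → ℕ) :
    (Ss m k l t o).Ok rk3 (Mk m k) where
  pos := Nat.mul_pos (FF_pos m k l (t + 1)) (LL_QQ_pos m k (sL m k l) t)
  cop := by
    intro f
    have h1 := rL_le_succ hm ht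
    have h2 := rL_le_sL m k l
    exact Nat.Coprime.mul_left (cop_Jn_pz (Nat.sub_le _ _) (by omega) f)
      (cop_LL_pz (by omega) (by omega) f)
  ze := fun _ => le_rfl
  dep := by
    intro f y y' h
    show Key.S l t f o (mask (univ.filter (fun g => g < f)) y) =
      Key.S l t f o (mask (univ.filter (fun g => g < f)) y')
    congr 1
    funext g
    unfold mask
    split_ifs with hg
    · exact h g (by simpa [rk3] using (mem_filter.1 hg).2)
    · rfl
  inj := by
    intro f f' y y' h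
    have h' : Key.S l t f o (mask (univ.filter (fun g => g < f)) y) =
      Key.S l t f' o (mask (univ.filter (fun g => g < f')) y') := h
    injection h' with _ _ h3 _ h5
    subst h3
    refine ⟨rfl, fun g hg => ?_⟩
    have h6 := congrFun h5 g
    have hg' : g ∈ univ.filter (fun g => g < f) :=
      mem_filter.2 ⟨mem_univ _, by simpa [rk3] using hg⟩
    unfold mask at h6
    rwa [if_pos hg', if_pos hg'] at h6
  size := fun _ _ => rfl

theorem cs_lt (m k l t : ℕ) (w : Key → ℕ) (o : JF → ℕ) (y : Fin 3 → ℕ) :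
    cs m k l t w o y < FF m k l (t + 1) * LL (QQ m k (sL m k l)) (t + 1) := by
  rw [LL_succ, ← mul_assoc]
  exact fc_lt _ _ _ (Nat.mul_pos (FF_pos m k l (t + 1)) (LL_QQ_pos m k (sL m k l) t)) _ _

theorem cs_dvd (m k l t : ℕ) (w : Key → ℕ) (o : JF → ℕ) (y : Fin 3 → ℕ) :
    FF m k l (t + 1) * LL (QQ m k (sL m k l)) t ∣ cs m k l t w o y := dvd_fc _ _ _ _ _

theorem cs_cast (hm : 0 < m) {l t : ℕ} (ht : t < rL m k l) (w : Key → ℕ) (o : JF → ℕ)
    (y : Fin 3 → ℕ) (f : Fin 3) :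
    ((cs m k l t w o y : ℕ) : ZMod (pz k (sL m k l - t) f ^ zf m k (sL m k l - t) f)) =
      Lg (pz k (sL m k l - t) f) (zf m k (sL m k l - t) f) (y f) +
        ((w (Key.S l t f o (mask (univ.filter (fun g => g < f)) y)) : ℕ) :
          ZMod (pz k (sL m k l - t) f ^ zf m k (sL m k l - t) f)) :=
  fc_cast (p := pz k (sL m k l - t)) _ _ _ (Ss_ok hm ht o).cop _ _ f

theorem Ys_adm (m k l t : ℕ) :
    Adm (pz k (sL m k l - t)) (zf m k (sL m k l - t)) (Ys m k l t) := by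
  intro y hy f
  exact mem_T1.1 ((Fintype.mem_piFinset.1 hy) f)

/-! ## the joint level -/

theorem c0_lt (m k l : ℕ) (w : Key → ℕ) (x : JF → ℕ) : c0 m k l w x < FF m k l 0 := by
  exact cv_lt _ _ _ _

theorem c0_cast (m k l : ℕ) (w : Key → ℕ) (x : JF → ℕ) (i : JF) :
    ((c0 m k l w x : ℕ) : ZMod (pJ k (sL m k l) i ^ aJ m k (sL m k l) (ef m k l 0) i)) =
      Lg (pJ k (sL m k l) i) (aJ m k (sL m k l) (ef m k l 0) i) (x i) +
        ((w (Key.J l i (maskJ (preJ m k l i) x)) : ℕ) :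
          ZMod (pJ k (sL m k l) i ^ aJ m k (sL m k l) (ef m k l 0) i)) :=
  cv_cast_comp (pJ_prime k (sL m k l)) (pJ_inj k (sL m k l)) _ _ i

theorem mem_XJ {l : ℕ} {x : JF → ℕ} (hx : x ∈ XJ m k l) (i : JF) :
    (x i = 1 ∧ aJ m k (sL m k l) l i = 0) ∨ (aJ m k (sL m k l) l i ≠ 0 ∧ (x i).Prime ∧
      (x i).Coprime (pJ k (sL m k l) i) ∧ x i ^ 2 < pJ k (sL m k l) i ^ aJ m k (sL m k l) l i) := by
  have h := (Fintype.mem_piFinset.1 hx) i
  by_cases h0 : aJ m k (sL m k l) l i = 0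
  · rw [if_pos h0, mem_singleton] at h
    exact Or.inl ⟨h, h0⟩
  · rw [if_neg h0] at h
    exact Or.inr ⟨h0, mem_T1.1 h⟩

/-! ## divisibility along the fronts -/

theorem ef_anti (hm : 0 < m) (l : ℕ) {t t' : ℕ} (h : t ≤ t') : ef m k l t' ≤ ef m k l t :=
  ez_le hm (Nat.sub_le_sub_left h _) l

theorem FF_dvd_FF (hm : 0 < m) (l : ℕ) {t t' : ℕ} (h : t ≤ t') : FF m k l t' ∣ FF m k l t :=
  Jn_dvd m k _ (ef_anti hm l h)

theorem Jn_dvd_FF (hm : 0 < m) {l x : ℕ} (hx : x ≤ l) (t : ℕ) :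
    Jn m k (sL m k l) x ∣ FF m k l t := Jn_dvd m k _ (hx.trans (lt_ef hm l t).le)

/-- two states with the same split levels -/
theorem FF_dvd_FF' {l' l : ℕ} (h : l' ≤ l) (hs : sL m k l' = sL m k l) (t : ℕ) :
    FF m k l' t ∣ FF m k l t := by
  unfold Pool.Agent.Helper84.T5b.FF Pool.Agent.Helper84.T5b.ef
  rw [hs]
  exact Jn_dvd m k _ (ez_mono m _ h)

end Pool.Agent.Helper48.T5b
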