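import Pool.Agent.Helper48.T5b.TwoNearB
import Pool.Agent.Helper54.T5b.SMFin

/-!
# T5b, line 10: `Blk CaseSplitTwo RpC`
-/

set_option autoImplicit false

namespace Pool.Agent.Helper48.T5b

open Pool.Agent.Helper84.T5b

/-- **the pairs across SPLIT above the joint front of the lower state** -/
theorem blk_splitTwo : Blk CaseSplitTwo RpC :=
  Pool.Agent.Helper98.S3P.splitTwo_of blk_twoNear Pool.Agent.Helper54.T5b.splitTwoFar

end Pool.Agent.Helper48.T5b
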