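import Pool.Agent.Helper48.T5b.TwoNum
import Pool.Agent.Helper21.T5b.SZGlue
import Pool.Agent.Helper12.T5b.SZKey
import Pool.Agent.Helper45.T5b.SZW
import Pool.Agent.Helper98.S3P.Top

/-!
# T5b, line 10, `Blk TwoNear RpC`: short distance above the joint front of the lower state

The windows of `Helper21/T5b/SZGlue.lean` (`pair_of`) with the multiplicity theorem `mult_two`.
-/

set_option autoImplicit false

namespace Pool.Agent.Helper48.T5b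

open Finset Pool.Agent.Helper37.T5b
open Pool.Agent.Helper22.SL
open Pool.Agent.Helper84.T5b
open Pool.Agent.Helper21.T5b
open Pool.Agent.Helper98.S3P (TwoNear)
open Pool.Agent.Helper30.T5b (ez)

/-- **`Blk TwoNear RpC`** from the lines N and E -/
theorem blk_twoNear_of (hE : EndI) (hN : ∀ m, 2 ≤ m → NumI m (m ^ 2)) : Blk TwoNear RpC := by
  classical
  obtain ⟨E, m0, hE⟩ := hE
  refine ⟨E + 6, max m0 2, fun m hm => ?_⟩
  have hm0 : m0 ≤ m := (le_max_left _ _).trans hm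
  have hm2 : 2 ≤ m := (le_max_right _ _).trans hm
  have hmp : 0 < m := by omega
  have hk : 3 ≤ m ^ 2 := by nlinarith
  have hKI := Pool.Agent.Helper12.T5b.keyI hm2 hk
  obtain ⟨C, K1, hP⟩ := pair_of hm2 hk hKI (hN m hm2)
    (Pool.Agent.Helper45.T5b.ppI hm2 (by omega))
  obtain ⟨K2, hKI⟩ := hKI
  obtain ⟨C1, c0, K3, q1, q2, hE⟩ := hE m hm0 C
  obtain ⟨K4, C0, C2, hM⟩ := mult_two hmp (m ^ 2)
  obtain ⟨K5, hMl⟩ := mult_le hmp (m ^ 2)
  obtain ⟨K6, hSZ⟩ := exists_SZ2 hmp (m ^ 2)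
  refine ⟨K1 + K2 + K3 + K4 + K5 + K6 + 1, ((C2 : ℝ) * (33 * C0 + 1) ^ 2) * C1, min c0 1, 1 + C,
    by positivity, lt_min q2 one_pos, by positivity, ?_⟩
  intro l l' hl' hll hp K hK hK'
  obtain ⟨⟨hNr, hSp, hi, h8⟩, h7⟩ := hp
  have h := hSZ l l' (by omega) hll hNr hSp hi h7
  have hlt : l' < l := h.lt
  have hev := h.ev
  obtain ⟨e1, e2, N, e3, e4, e5⟩ := hE _ l' l (by omega) h
  obtain ⟨-, ⟨k1, k2, k3⟩, -, -⟩ := hKI _ l' l (by omega) h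
  have hne : ez m (sL m (m ^ 2) l') l' ≠ ez m (sL m (m ^ 2) l') l := h.jump 1 le_rfl (by omega)
  have hmult := hM l' l (by omega) hlt hev h8.le hne (keysV m (m ^ 2) l l') k1 k2 k3
  have hmain := hP _ l' l (by omega) h K hK hK'
    (C2 * (C0 * l / SS m (sL m (m ^ 2) l') + 1) ^ 2) (Real.exp (-(2 * (l : ℝ))))
    (Real.exp_pos _).le hmult N e3 e4
  have hCI := hMl l' l (by omega) hll hev C0 C2
  have hl1 : (1 : ℝ) ≤ l := by exact_mod_cast (show 1 ≤ l by omega)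
  have hl0 : (0 : ℝ) < l := by linarith
  have hsum : (l : ℝ) ^ (((E + 6 : ℕ) : ℝ) / (m : ℝ)) =
      (l : ℝ) ^ (((6 : ℕ) : ℝ) / (m : ℝ)) * (l : ℝ) ^ ((E : ℝ) / (m : ℝ)) := by
    rw [← Real.rpow_add hl0]
    congr 1
    push_cast
    ring
  rw [← Pool.Agent.Helper22.NEAR.PrG_iff_PrLe]
  refine PrG_mono ?_ ?_ hmain
  · rintro r _ ⟨c, ⟨n, rfl⟩, hc⟩
    refine ⟨n, ?_⟩
    have h1 : ((C * (C2 * (C0 * l / SS m (sL m (m ^ 2) l') + 1) ^ 2 *
        ((N + 1) ^ 256 * SS m (bL m (m ^ 2) l))) : ℕ) : ℝ) ≤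
        (C2 : ℝ) * (33 * C0 + 1) ^ 2 * C1 * (l : ℝ) ^ (((E + 6 : ℕ) : ℝ) / (m : ℝ)) := by
      rw [hsum]
      calc ((C * (C2 * (C0 * l / SS m (sL m (m ^ 2) l') + 1) ^ 2 *
          ((N + 1) ^ 256 * SS m (bL m (m ^ 2) l))) : ℕ) : ℝ)
          = ((C2 * (C0 * l / SS m (sL m (m ^ 2) l') + 1) ^ 2 : ℕ) : ℝ) *
            (((N + 1) ^ 256 * (C * SS m (bL m (m ^ 2) l)) : ℕ) : ℝ) := by
            push_cast
            ring
        _ ≤ ((C2 : ℝ) * (33 * C0 + 1) ^ 2 * (l : ℝ) ^ (((6 : ℕ) : ℝ) / (m : ℝ))) *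
            (C1 * (l : ℝ) ^ ((E : ℝ) / (m : ℝ))) :=
            mul_le_mul hCI e5 (Nat.cast_nonneg _) (by positivity)
        _ = _ := by ring
    exact_mod_cast h1.trans_lt hc
  · have g1 : (l : ℝ) ^ (min c0 1) ≤ 2 * (l : ℝ) := by
      have := Real.rpow_le_rpow_of_exponent_le hl1 (min_le_right c0 1)
      rw [Real.rpow_one] at this
      linarith
    have g2 : (l : ℝ) ^ (min c0 1) ≤ (SS m (bL m (m ^ 2) l) : ℝ) :=
      (Real.rpow_le_rpow_of_exponent_le hl1 (min_le_left c0 1)).trans e1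
    have g3 : Real.exp (-(2 * (l : ℝ))) ≤ Real.exp (-((l : ℝ) ^ (min c0 1))) :=
      Real.exp_le_exp.2 (by linarith)
    have g4 : Real.exp (-(SS m (bL m (m ^ 2) l) : ℝ)) ≤ Real.exp (-((l : ℝ) ^ (min c0 1))) :=
      Real.exp_le_exp.2 (by linarith)
    have g5 : (C : ℝ) * Real.exp (-(SS m (bL m (m ^ 2) l) : ℝ)) ≤
        C * Real.exp (-((l : ℝ) ^ (min c0 1))) := mul_le_mul_of_nonneg_left g4 (Nat.cast_nonneg _)
    linarith

end Pool.Agent.Helper48.T5b
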