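import Pool.Agent.Helper48.T5b.TwoNear
import Pool.Agent.Helper21.T5b.SZNumI
import Pool.Agent.Helper53.T5b.EndI

/-!
# T5b: `Blk TwoNear RpC`
-/

set_option autoImplicit false

namespace Pool.Agent.Helper48.T5b

open Pool.Agent.Helper84.T5b
open Pool.Agent.Helper98.S3P (TwoNear)

/-- **the pairs across SPLIT above the joint front of the lower state, short distance** -/
theorem blk_twoNear : Blk TwoNear RpC :=
  blk_twoNear_of Pool.Agent.Helper53.T5b.endI
    (fun _ hm => Pool.Agent.Helper21.T5b.numI hm (by nlinarith))

end Pool.Agent.Helper48.T5b
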