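import Pool.Agent.Helper48.T5b.MultTwo

/-!
# T5b, `TwoNear`: the exponent of the multiplicity
-/

set_option autoImplicit false

namespace Pool.Agent.Helper48.T5b

open Finset Pool.Agent.Helper27.T4 Pool.Agent.Helper37.T5b
open Pool.Agent.Helper5.ET (bb era)
open Pool.Agent.Helper30.T5b
open Pool.Agent.Helper84.T5b (mL sL)

variable {m k : ℕ}

/-- the size of the split level of the lower state is almost linear -/
theorem le_SS_split (hm : 0 < m) (k : ℕ) : ∃ l0 : ℕ, ∀ l' l, l0 ≤ l' → l' ≤ l →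
    SplitEv m k (mL m k l') (mL m k l) →
    (l : ℝ) ≤ 33 * ((l : ℝ) ^ (((3 : ℕ) : ℝ) / (m : ℝ)) * (SS m (sL m k l') : ℝ)) := by
  obtain ⟨lc, hc⟩ := Pool.Agent.Helper30.T5b.exists_late (k := k) hm 1 0
  refine ⟨lc, fun l' l hl' hl hev => ?_⟩
  obtain ⟨p1, p2, p3, -, p5⟩ := hc l (by omega)
  have hP := SplitP_of hm hl hev
  have hs1 := hP.s1
  have hs' := hP.s'
  have hmLl : mL m k l ≤ l := Pool.Agent.Helper27.T5b.l1_le (ins m k) l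
  have f1 := Pool.Agent.Helper30.T5b.le_rpow_mul_SS (k := k) (i := 1) hm p2 p3 (by
    show 1 ≤ sL m k l
    omega)
  have f2 : sv m k (mL m k l) - 1 = sL m k l' := by
    show sL m k l - 1 = sL m k l'
    omega
  have f3 : (mL m k l : ℝ) ≤ 2 ^ (1 + 4) * (mL m k l : ℝ) ^ ((((1 : ℕ) : ℝ) + 2) / m) *
      (SS m (sL m k l') : ℝ) := by
    have f5 : (mL m k l : ℝ) ≤ 2 ^ (1 + 4) * (mL m k l : ℝ) ^ ((((1 : ℕ) : ℝ) + 2) / m) *
      (SS m (sv m k (mL m k l) - 1) : ℝ) := f1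
    rw [f2] at f5
    exact f5
  have f6 : (mL m k l : ℝ) ^ ((((1 : ℕ) : ℝ) + 2) / m) ≤ (l : ℝ) ^ (((3 : ℕ) : ℝ) / (m : ℝ)) := by
    have g1 : (((1 : ℕ) : ℝ) + 2) / m = ((3 : ℕ) : ℝ) / (m : ℝ) := by norm_num
    rw [g1]
    exact Real.rpow_le_rpow (Nat.cast_nonneg _) (by exact_mod_cast hmLl) (by positivity)
  have f7 : (1000 : ℝ) * l ≤ 1001 * mL m k l := by exact_mod_cast p5
  have f8 : (mL m k l : ℝ) ≤ 32 * ((l : ℝ) ^ (((3 : ℕ) : ℝ) / (m : ℝ)) *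
      (SS m (sL m k l') : ℝ)) := by
    calc (mL m k l : ℝ) ≤ 2 ^ (1 + 4) * (mL m k l : ℝ) ^ ((((1 : ℕ) : ℝ) + 2) / m) *
        (SS m (sL m k l') : ℝ) := f3
      _ ≤ 2 ^ (1 + 4) * (l : ℝ) ^ (((3 : ℕ) : ℝ) / (m : ℝ)) * (SS m (sL m k l') : ℝ) := by
        gcongr
      _ = _ := by ring
  have f9 : (0 : ℝ) ≤ (l : ℝ) ^ (((3 : ℕ) : ℝ) / (m : ℝ)) * (SS m (sL m k l') : ℝ) := by
    positivity
  nlinarith

/-- **the exponent of the multiplicity** -/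
theorem mult_le (hm : 0 < m) (k : ℕ) : ∃ l0 : ℕ, ∀ l' l, l0 ≤ l' → l' ≤ l →
    SplitEv m k (mL m k l') (mL m k l) → ∀ C0 C1 : ℕ,
    ((C1 * (C0 * l / SS m (sL m k l') + 1) ^ 2 : ℕ) : ℝ) ≤
      (C1 : ℝ) * (33 * C0 + 1) ^ 2 * (l : ℝ) ^ (((6 : ℕ) : ℝ) / (m : ℝ)) := by
  obtain ⟨l0, h0⟩ := le_SS_split hm k
  refine ⟨l0 + 1, fun l' l hl' hl hev C0 C1 => ?_⟩
  have h1 := h0 l' l (by omega) hl hev
  have hS : (0 : ℝ) < SS m (sL m k l') := by exact_mod_cast SS_pos m _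
  have hl1 : (1 : ℝ) ≤ l := by
    have : 1 ≤ l := by omega
    exact_mod_cast this
  set y := (l : ℝ) ^ (((3 : ℕ) : ℝ) / (m : ℝ)) with hy
  have hy1 : 1 ≤ y := Real.one_le_rpow hl1 (by positivity)
  have h2 : ((C0 * l / SS m (sL m k l') : ℕ) : ℝ) ≤ 33 * C0 * y := by
    refine Nat.cast_div_le.trans ?_
    rw [div_le_iff₀ hS]
    push_cast
    calc (C0 : ℝ) * l ≤ C0 * (33 * (y * (SS m (sL m k l') : ℝ))) :=
          mul_le_mul_of_nonneg_left h1 (Nat.cast_nonneg _)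
      _ = _ := by ring
  have h3 : ((C0 * l / SS m (sL m k l') + 1 : ℕ) : ℝ) ≤ (33 * C0 + 1) * y := by
    push_cast
    have h4 : (33 * C0 + 1) * y = 33 * C0 * y + y := by ring
    rw [h4]
    exact add_le_add h2 hy1
  have h5 : (l : ℝ) ^ (((6 : ℕ) : ℝ) / (m : ℝ)) = y ^ 2 := by
    rw [hy, ← Real.rpow_natCast, ← Real.rpow_mul (by linarith)]
    congr 1
    push_cast
    ring
  have h6 : (0 : ℝ) ≤ ((C0 * l / SS m (sL m k l') + 1 : ℕ) : ℝ) := Nat.cast_nonneg _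
  rw [h5]
  calc ((C1 * (C0 * l / SS m (sL m k l') + 1) ^ 2 : ℕ) : ℝ)
      = (C1 : ℝ) * ((C0 * l / SS m (sL m k l') + 1 : ℕ) : ℝ) ^ 2 := by
        push_cast
        ring
    _ ≤ (C1 : ℝ) * ((33 * C0 + 1) * y) ^ 2 := by
        refine mul_le_mul_of_nonneg_left ?_ (Nat.cast_nonneg _)
        exact pow_le_pow_left₀ h6 h3 2
    _ = _ := by ring

end Pool.Agent.Helper48.T5b
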